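import Pool.Agent.Q264.KS.Stm3

/-!
# KS3-S2 (project KS of helper264): the lens lemma in dimension three
-/

set_option autoImplicit false

namespace Pool.Agent.Q79.KS

open Pool.Agent.Q264.KS Module Filter Topology

universe u

section general
variable {X : Type*} [NormedAddCommGroup X] [NormedSpace ℝ X]

theorem D_le (x z : X) : D x z ≤ ‖z‖ := by
  have h1 : ‖D x‖ ≤ 1 := by
    have h0 : ‖fderiv ℝ (fun z : X => ‖z‖) x‖ ≤ ((1 : NNReal) : ℝ) :=
      norm_fderiv_le_of_lipschitz ℝ lipschitzWith_one_norm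
    rw [NNReal.coe_one] at h0
    exact h0
  calc D x z ≤ ‖D x z‖ := le_abs_self _
    _ ≤ ‖D x‖ * ‖z‖ := (D x).le_opNorm z
    _ ≤ 1 * ‖z‖ := mul_le_mul_of_nonneg_right h1 (norm_nonneg _)
    _ = ‖z‖ := one_mul _

theorem D_self {x : X} (hx : Sm x) : D x x = ‖x‖ := DifferentiableAt.fderiv_norm_self hx

theorem BJ_scale {x y : X} {c d : ℝ} (hc : c ≠ 0) (hd : d ≠ 0) (h : BJ x y) :
    BJ (c • x) (d • y) := by
  apply BJ_smul (a := c⁻¹) (b := d⁻¹) (inv_ne_zero hc) (inv_ne_zero hd)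
  rw [smul_smul, smul_smul, inv_mul_cancel₀ hc, inv_mul_cancel₀ hd, one_smul, one_smul]
  exact h

theorem BJ_zero (y : X) : BJ (0 : X) y := by
  intro l
  rw [norm_zero]
  exact norm_nonneg _

theorem BJ_left {x y : X} (c : ℝ) (h : BJ x y) : BJ (c • x) y := by
  by_cases hc : c = 0
  · rw [hc, zero_smul]
    exact BJ_zero y
  · have := BJ_scale hc one_ne_zero h
    rwa [one_smul] at this

theorem not_BJ_self {x : X} (hx : x ≠ 0) : ¬ BJ x x := by
  intro h
  have h1 := h (-1)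
  rw [neg_one_smul, add_neg_cancel, norm_zero] at h1
  exact hx (norm_le_zero_iff.1 h1)

/-- doubling the second component does not decrease the norm if `BJ w v` -/
theorem double_le {w v : X} (h : BJ w v) (l : ℝ) : ‖w + l • v‖ ≤ ‖w + (2 * l) • v‖ := by
  have h1 := h (2 * l)
  have h2 : w + l • v = (1 / 2 : ℝ) • w + (1 / 2 : ℝ) • (w + (2 * l) • v) := by
    rw [smul_add, smul_smul, ← add_assoc, ← add_smul]
    have e1 : (1 / 2 + 1 / 2 : ℝ) = 1 := by norm_num
    have e2 : (1 / 2 * (2 * l) : ℝ) = l := by ring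
    rw [e1, e2, one_smul]
  rw [h2]
  refine le_trans (norm_add_le _ _) ?_
  rw [norm_smul, norm_smul, Real.norm_of_nonneg (by norm_num)]
  linarith

/-- if doubling never decreases the norm then `BJ h v` -/
theorem BJ_of_double {h v : X} (hd : ∀ l : ℝ, ‖h + l • v‖ ≤ ‖h + (2 * l) • v‖) : BJ h v := by
  intro l
  have h1 : ∀ k : ℕ, ‖h + ((1 / 2 : ℝ) ^ k * l) • v‖ ≤ ‖h + l • v‖ := by
    intro k
    induction k with
    | zero => simp
    | succ k ih =>
      refine le_trans (hd _) (le_trans (le_of_eq ?_) ih)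
      congr 3
      rw [pow_succ]
      ring
  have h2 : Tendsto (fun k : ℕ => ‖h + ((1 / 2 : ℝ) ^ k * l) • v‖) atTop
      (𝓝 ‖h + ((0 : ℝ) * l) • v‖) := by
    have h3 : Tendsto (fun k : ℕ => (1 / 2 : ℝ) ^ k) atTop (𝓝 0) :=
      tendsto_pow_atTop_nhds_zero_of_lt_one (by norm_num) (by norm_num)
    exact (tendsto_const_nhds.add ((h3.mul_const l).smul_const v)).norm
  have h4 := le_of_tendsto' h2 h1
  rwa [zero_mul, zero_smul, add_zero] at h4

end general

/-- the determinant argument -/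
theorem det_arg {n₁ n₂ c₁ c₂ α β : ℝ} (h1 : 0 < n₁) (h2 : 0 < n₂) (hc1 : 0 < c₁) (_hc2 : 0 < c₂)
    (h3 : c₁ < n₂) (h4 : c₂ < n₁) (e1 : α * n₁ + β * c₁ = 0) (e2 : α * c₂ + β * n₂ = 0) :
    α = 0 ∧ β = 0 := by
  have h5 : c₁ * c₂ < n₁ * n₂ := by nlinarith
  have h6 : α * (n₁ * n₂ - c₁ * c₂) = 0 := by
    linear_combination n₂ * e1 - c₁ * e2
  have h7 : α = 0 := by
    rcases mul_eq_zero.1 h6 with h | h
    · exact h
    · linarith
  refine ⟨h7, ?_⟩
  rw [h7, zero_mul, zero_add] at e2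
  rcases mul_eq_zero.1 e2 with h | h
  · exact h
  · linarith

theorem t_S2 : S_S2.{u} := by
  intro hB hU X _ _ _ hdim hP x₁ x₂ v hs₁ hs₂ hd1 hd2 hv1 hv2 hv hD a b ha hb
  -- the norms
  have hx₁ : x₁ ≠ 0 := by
    rintro rfl
    apply hD
    rw [norm_zero, zero_div] at hd1
    have := norm_le_zero_iff.1 hd1
    rw [sub_eq_zero.1 this]
  have hx₂ : x₂ ≠ 0 := by
    rintro rfl
    apply hD
    rw [norm_zero, zero_div] at hd2
    have := norm_le_zero_iff.1 hd2
    rw [sub_eq_zero.1 this]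
  have hn₁ : 0 < ‖x₁‖ := norm_pos_iff.2 hx₁
  have hn₂ : 0 < ‖x₂‖ := norm_pos_iff.2 hx₂
  have hD11 : D x₁ x₁ = ‖x₁‖ := D_self hs₁
  have hD22 : D x₂ x₂ = ‖x₂‖ := D_self hs₂
  have hD12 : 7 / 8 * ‖x₁‖ ≤ D x₁ x₂ := by
    have h1 := D_le x₁ (x₁ - x₂)
    rw [map_sub, hD11] at h1
    linarith
  have hD21 : 7 / 8 * ‖x₂‖ ≤ D x₂ x₁ := by
    have h1 := D_le x₂ (x₂ - x₁)
    rw [map_sub, hD22, norm_sub_rev] at h1
    linarith
  have hlt1 : D x₁ x₂ < ‖x₂‖ := by
    refine lt_of_le_of_ne (D_le x₁ x₂) fun h => hD ?_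
    exact hU X x₂ hs₂ (D x₁) (D_le x₁) h
  have hlt2 : D x₂ x₁ < ‖x₁‖ := by
    refine lt_of_le_of_ne (D_le x₂ x₁) fun h => hD ?_
    exact (hU X x₁ hs₁ (D x₂) (D_le x₂) h).symm
  have hD12p : 0 < D x₁ x₂ := by linarith
  have hD21p : 0 < D x₂ x₁ := by linarith
  -- BJ at x₁, x₂
  have hBJ1 : ∀ y, BJ x₁ y ↔ D x₁ y = 0 := hB X x₁ hs₁
  have hBJ2 : ∀ y, BJ x₂ y ↔ D x₂ y = 0 := hB X x₂ hs₂
  -- the basis
  have hli : LinearIndependent ℝ ![x₁, x₂, v] := by
    rw [Fintype.linearIndependent_iff]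
    intro g hg
    rw [Fin.sum_univ_three] at hg
    have hg' : g 0 • x₁ + g 1 • x₂ + g 2 • v = 0 := hg
    have e1 : g 0 * ‖x₁‖ + g 1 * D x₁ x₂ = 0 := by
      have := congrArg (D x₁) hg'
      rw [map_add, map_add, map_smul, map_smul, map_smul, hv1, hD11, map_zero] at this
      simpa using this
    have e2 : g 0 * D x₂ x₁ + g 1 * ‖x₂‖ = 0 := by
      have := congrArg (D x₂) hg'
      rw [map_add, map_add, map_smul, map_smul, map_smul, hv2, hD22, map_zero] at this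
      simpa using this
    obtain ⟨h0, h1⟩ := det_arg hn₁ hn₂ hD12p hD21p hlt1 hlt2 e1 e2
    have h2 : g 2 = 0 := by
      rw [h0, h1, zero_smul, zero_smul, zero_add, zero_add] at hg'
      exact (smul_eq_zero.1 hg').resolve_right hv
    intro i
    fin_cases i
    · exact h0
    · exact h1
    · exact h2
  let B : Basis (Fin 3) ℝ X := basisOfLinearIndependentOfCardEqFinrank hli (by rw [hdim]; rfl)
  have hB0 : B 0 = x₁ := by
    rw [coe_basisOfLinearIndependentOfCardEqFinrank]; rfl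
  have hB1 : B 1 = x₂ := by
    rw [coe_basisOfLinearIndependentOfCardEqFinrank]; rfl
  have hB2 : B 2 = v := by
    rw [coe_basisOfLinearIndependentOfCardEqFinrank]; rfl
  let p : X →ₗ[ℝ] ℝ := B.coord 0
  let q : X →ₗ[ℝ] ℝ := B.coord 1
  let φ : X →ₗ[ℝ] ℝ := B.coord 2
  have hz : ∀ z : X, z = p z • x₁ + q z • x₂ + φ z • v := by
    intro z
    have h1 := B.sum_repr z
    rw [Fin.sum_univ_three, hB0, hB1, hB2] at h1
    exact h1.symm
  have hp1 : p x₁ = 1 := by
    show B.repr x₁ 0 = 1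
    rw [← hB0, B.repr_self]; simp
  have hp2 : p x₂ = 0 := by
    show B.repr x₂ 0 = 0
    rw [← hB1, B.repr_self]; simp
  have hp3 : p v = 0 := by
    show B.repr v 0 = 0
    rw [← hB2, B.repr_self]; simp
  have hq1 : q x₁ = 0 := by
    show B.repr x₁ 1 = 0
    rw [← hB0, B.repr_self]; simp
  have hq2 : q x₂ = 1 := by
    show B.repr x₂ 1 = 1
    rw [← hB1, B.repr_self]; simp
  have hq3 : q v = 0 := by
    show B.repr v 1 = 0
    rw [← hB2, B.repr_self]; simp
  have hφ1 : φ x₁ = 0 := by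
    show B.repr x₁ 2 = 0
    rw [← hB0, B.repr_self]; simp
  have hφ2 : φ x₂ = 0 := by
    show B.repr x₂ 2 = 0
    rw [← hB1, B.repr_self]; simp
  have hφ3 : φ v = 1 := by
    show B.repr v 2 = 1
    rw [← hB2, B.repr_self]; simp
  let T : X →ₗ[ℝ] X := LinearMap.id + φ.smulRight v
  have hT : ∀ z, T z = z + φ z • v := fun z => rfl
  have hpT : ∀ z, p (T z) = p z := by
    intro z
    rw [hT, map_add, map_smul, hp3, smul_zero, add_zero]
  have hqT : ∀ z, q (T z) = q z := by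
    intro z
    rw [hT, map_add, map_smul, hq3, smul_zero, add_zero]
  -- suppose the claim is false
  by_contra hcon
  have hex : ∃ l : ℝ, ‖(a • x₁ + b • x₂) + (2 * l) • v‖ < ‖(a • x₁ + b • x₂) + l • v‖ := by
    by_contra h1
    push Not at h1
    exact hcon (BJ_of_double h1)
  obtain ⟨l₀, hl₀⟩ := hex
  set z' : X := (a • x₁ + b • x₂) + l₀ • v with hz'
  have hpz' : p z' = a := by
    rw [hz', map_add, map_add, map_smul, map_smul, map_smul, hp1, hp2, hp3]
    simp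
  have hqz' : q z' = b := by
    rw [hz', map_add, map_add, map_smul, map_smul, map_smul, hq1, hq2, hq3]
    simp
  have hφz' : φ z' = l₀ := by
    rw [hz', map_add, map_add, map_smul, map_smul, map_smul, hφ1, hφ2, hφ3]
    simp
  have hTz' : ‖T z'‖ < ‖z'‖ := by
    have h1 : T z' = (a • x₁ + b • x₂) + (2 * l₀) • v := by
      rw [hT, hφz', hz', add_assoc, ← add_smul]
      congr 2
      ring
    rw [h1]
    exact hl₀
  have hz'n : 0 < ‖z'‖ := lt_of_le_of_lt (norm_nonneg _) hTz'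
  -- the minimum
  have hpc : Continuous p := p.continuous_of_finiteDimensional
  have hqc : Continuous q := q.continuous_of_finiteDimensional
  have hTc : Continuous T := T.continuous_of_finiteDimensional
  let K : Set X := {z | 0 ≤ p z} ∩ {z | 0 ≤ q z} ∩ Metric.sphere (0 : X) 1
  have hKc : IsCompact K := by
    have : ProperSpace X := FiniteDimensional.proper_real X
    apply (isCompact_sphere (0 : X) 1).inter_left
    exact (isClosed_le continuous_const hpc).inter (isClosed_le continuous_const hqc)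
  have hKn : (‖z'‖⁻¹ • z') ∈ K := by
    refine ⟨⟨?_, ?_⟩, ?_⟩
    · show 0 ≤ p (‖z'‖⁻¹ • z')
      rw [map_smul, hpz', smul_eq_mul]
      positivity
    · show 0 ≤ q (‖z'‖⁻¹ • z')
      rw [map_smul, hqz', smul_eq_mul]
      positivity
    · rw [mem_sphere_zero_iff_norm, norm_smul, norm_inv, norm_norm, inv_mul_cancel₀ hz'n.ne']
  obtain ⟨x₃, hx₃K, hx₃min⟩ := hKc.exists_isMinOn ⟨_, hKn⟩ (hTc.norm).continuousOn
  obtain ⟨⟨hp0, hq0⟩, hx₃n⟩ := hx₃K
  have hp0 : 0 ≤ p x₃ := hp0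
  have hq0 : 0 ≤ q x₃ := hq0
  have hx₃n : ‖x₃‖ = 1 := mem_sphere_zero_iff_norm.1 hx₃n
  have hm1 : ‖T x₃‖ < 1 := by
    have h1 : ‖T x₃‖ ≤ ‖T (‖z'‖⁻¹ • z')‖ := hx₃min hKn
    refine lt_of_le_of_lt h1 ?_
    rw [map_smul, norm_smul, norm_inv, norm_norm, inv_mul_lt_iff₀ hz'n, mul_one]
    exact hTz'
  have hmin : ∀ z, 0 ≤ p z → 0 ≤ q z → ‖T x₃‖ * ‖z‖ ≤ ‖T z‖ := by
    intro z h1 h2
    by_cases h3 : z = 0
    · rw [h3, norm_zero, mul_zero]
      exact norm_nonneg _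
    · have h4 : 0 < ‖z‖ := norm_pos_iff.2 h3
      have h5 : (‖z‖⁻¹ • z) ∈ K := by
        refine ⟨⟨?_, ?_⟩, ?_⟩
        · show 0 ≤ p (‖z‖⁻¹ • z)
          rw [map_smul, smul_eq_mul]
          positivity
        · show 0 ≤ q (‖z‖⁻¹ • z)
          rw [map_smul, smul_eq_mul]
          positivity
        · rw [mem_sphere_zero_iff_norm, norm_smul, norm_inv, norm_norm, inv_mul_cancel₀ h4.ne']
      have h6 : ‖T x₃‖ ≤ ‖T (‖z‖⁻¹ • z)‖ := hx₃min h5
      rw [map_smul, norm_smul, norm_inv, norm_norm] at h6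
      calc ‖T x₃‖ * ‖z‖ ≤ (‖z‖⁻¹ * ‖T z‖) * ‖z‖ := mul_le_mul_of_nonneg_right h6 h4.le
        _ = ‖T z‖ := by field_simp
  have hx₃z := hz x₃
  -- positivity of the coordinates
  have hTx₃ : T x₃ = (p x₃ • x₁ + q x₃ • x₂) + (2 * φ x₃) • v := by
    rw [hT]
    nth_rewrite 1 [hx₃z]
    rw [add_assoc, ← add_smul]
    congr 2
    ring
  have hq0' : 0 < q x₃ := by
    refine lt_of_le_of_ne hq0 fun h => ?_
    have h1 : BJ (p x₃ • x₁ + q x₃ • x₂) v := by
      rw [← h, zero_smul, add_zero]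
      exact BJ_left _ ((hBJ1 v).2 hv1)
    have h2 := double_le h1 (φ x₃)
    rw [← hTx₃, ← hx₃z, hx₃n] at h2
    linarith
  have hp0' : 0 < p x₃ := by
    refine lt_of_le_of_ne hp0 fun h => ?_
    have h1 : BJ (p x₃ • x₁ + q x₃ • x₂) v := by
      rw [← h, zero_smul, zero_add]
      exact BJ_left _ ((hBJ2 v).2 hv2)
    have h2 := double_le h1 (φ x₃)
    rw [← hTx₃, ← hx₃z, hx₃n] at h2
    linarith
  have hl : φ x₃ ≠ 0 := by
    intro h
    have : T x₃ = x₃ := by rw [hT, h, zero_smul, add_zero]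
    rw [this, hx₃n] at hm1
    exact lt_irrefl _ hm1
  -- T preserves BJ at the three points
  have hPres₃ : Pres T x₃ := by
    intro y hy
    apply BJ_of_small (δ := min (p x₃ / (|p y| + 1)) (q x₃ / (|q y| + 1))) (by positivity)
    intro t ht
    have h1 : |t| * (|p y| + 1) < p x₃ := by
      have := lt_of_lt_of_le ht (min_le_left _ _)
      rwa [lt_div_iff₀ (by positivity)] at this
    have h2 : |t| * (|q y| + 1) < q x₃ := by
      have := lt_of_lt_of_le ht (min_le_right _ _)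
      rwa [lt_div_iff₀ (by positivity)] at this
    have h3 : 0 ≤ p (x₃ + t • y) := by
      rw [map_add, map_smul, smul_eq_mul]
      have h4 : -(|t| * |p y|) ≤ t * p y := by
        rw [← abs_mul]
        exact neg_abs_le _
      nlinarith [abs_nonneg t]
    have h4 : 0 ≤ q (x₃ + t • y) := by
      rw [map_add, map_smul, smul_eq_mul]
      have h4 : -(|t| * |q y|) ≤ t * q y := by
        rw [← abs_mul]
        exact neg_abs_le _
      nlinarith [abs_nonneg t]
    have h5 := hmin _ h3 h4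
    rw [map_add, map_smul] at h5
    refine le_trans ?_ h5
    have h6 := hy t
    rw [hx₃n] at h6
    nlinarith [norm_nonneg (T x₃)]
  have hTx₁ : T x₁ = x₁ := by rw [hT, hφ1, zero_smul, add_zero]
  have hTx₂ : T x₂ = x₂ := by rw [hT, hφ2, zero_smul, add_zero]
  have hPres₁ : ∀ y, BJ x₁ y → BJ x₁ (T y) := by
    intro y hy
    rw [hBJ1] at hy ⊢
    rw [hT, map_add, map_smul, hv1, hy, smul_zero, add_zero]
  have hPres₂ : ∀ y, BJ x₂ y → BJ x₂ (T y) := by
    intro y hy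
    rw [hBJ2] at hy ⊢
    rw [hT, map_add, map_smul, hv2, hy, smul_zero, add_zero]
  -- bounds
  have hb1 : D x₁ x₃ = p x₃ * ‖x₁‖ + q x₃ * D x₁ x₂ := by
    nth_rewrite 1 [hx₃z]
    rw [map_add, map_add, map_smul, map_smul, map_smul, hv1, hD11]
    simp
  have hb2 : D x₂ x₃ = p x₃ * D x₂ x₁ + q x₃ * ‖x₂‖ := by
    nth_rewrite 1 [hx₃z]
    rw [map_add, map_add, map_smul, map_smul, map_smul, hv2, hD22]
    simp
  have hb1' : q x₃ * (7 / 8 * ‖x₁‖) ≤ 1 := by
    have h1 := D_le x₁ x₃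
    rw [hb1, hx₃n] at h1
    have h2 : q x₃ * (7 / 8 * ‖x₁‖) ≤ q x₃ * D x₁ x₂ := mul_le_mul_of_nonneg_left hD12 hq0
    have h3 : 0 ≤ p x₃ * ‖x₁‖ := by positivity
    linarith
  have hb2' : p x₃ * (7 / 8 * ‖x₂‖) ≤ 1 := by
    have h1 := D_le x₂ x₃
    rw [hb2, hx₃n] at h1
    have h2 : p x₃ * (7 / 8 * ‖x₂‖) ≤ p x₃ * D x₂ x₁ := mul_le_mul_of_nonneg_left hD21 hp0
    have h3 : 0 ≤ q x₃ * ‖x₂‖ := by positivity
    linarith
  -- not orthogonal
  have hx₃0 : x₃ ≠ 0 := by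
    intro h
    rw [h, norm_zero] at hx₃n
    exact zero_ne_one hx₃n
  have n12 : ¬ BJ x₁ x₂ := fun h => hD12p.ne' ((hBJ1 _).1 h)
  have n21 : ¬ BJ x₂ x₁ := fun h => hD21p.ne' ((hBJ2 _).1 h)
  have n13 : ¬ BJ x₁ x₃ := fun h => by
    have h1 := (hBJ1 _).1 h
    rw [hb1] at h1
    have : 0 < p x₃ * ‖x₁‖ + q x₃ * D x₁ x₂ := by positivity
    linarith
  have n23 : ¬ BJ x₂ x₃ := fun h => by
    have h1 := (hBJ2 _).1 h
    rw [hb2] at h1
    have : 0 < p x₃ * D x₂ x₁ + q x₃ * ‖x₂‖ := by positivity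
    linarith
  have n31 : ¬ BJ x₃ x₁ := fun h => by
    have h1 := h (-((p x₃ + q x₃) / 2))
    have h2 : x₃ + (-((p x₃ + q x₃) / 2)) • x₁ =
        (1 / 2 : ℝ) • T x₃ + (q x₃ / 2) • (x₂ - x₁) := by
      rw [hTx₃]
      nth_rewrite 1 [hx₃z]
      module
    rw [h2, hx₃n] at h1
    have h3 := norm_add_le ((1 / 2 : ℝ) • T x₃) ((q x₃ / 2) • (x₂ - x₁))
    rw [norm_smul, norm_smul, Real.norm_of_nonneg (by norm_num : (0:ℝ) ≤ 1 / 2),
      Real.norm_of_nonneg (by positivity : (0:ℝ) ≤ q x₃ / 2), norm_sub_rev] at h3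
    have h4 : q x₃ / 2 * ‖x₁ - x₂‖ ≤ q x₃ / 2 * (‖x₁‖ / 8) :=
      mul_le_mul_of_nonneg_left hd1 (by positivity)
    nlinarith
  have n32 : ¬ BJ x₃ x₂ := fun h => by
    have h1 := h (-((p x₃ + q x₃) / 2))
    have h2 : x₃ + (-((p x₃ + q x₃) / 2)) • x₂ =
        (1 / 2 : ℝ) • T x₃ + (p x₃ / 2) • (x₁ - x₂) := by
      rw [hTx₃]
      nth_rewrite 1 [hx₃z]
      module
    rw [h2, hx₃n] at h1
    have h3 := norm_add_le ((1 / 2 : ℝ) • T x₃) ((p x₃ / 2) • (x₁ - x₂))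
    rw [norm_smul, norm_smul, Real.norm_of_nonneg (by norm_num : (0:ℝ) ≤ 1 / 2),
      Real.norm_of_nonneg (by positivity : (0:ℝ) ≤ p x₃ / 2)] at h3
    have h4 : p x₃ / 2 * ‖x₁ - x₂‖ ≤ p x₃ / 2 * (‖x₂‖ / 8) :=
      mul_le_mul_of_nonneg_left hd2 (by positivity)
    nlinarith
  -- the three unit vectors
  let w : Fin 3 → X := ![x₁, x₂, x₃]
  let c : Fin 3 → ℝ := ![‖x₁‖⁻¹, ‖x₂‖⁻¹, 1]
  have hc : ∀ i, c i ≠ 0 := by
    intro i
    fin_cases i
    · exact inv_ne_zero hn₁.ne'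
    · exact inv_ne_zero hn₂.ne'
    · exact one_ne_zero
  have hwn : ∀ i j, ¬ BJ (w i) (w j) := by
    intro i j
    fin_cases i <;> fin_cases j
    · exact not_BJ_self hx₁
    · exact n12
    · exact n13
    · exact n21
    · exact not_BJ_self hx₂
    · exact n23
    · exact n31
    · exact n32
    · exact not_BJ_self hx₃0
  have hwP : ∀ i, Pres T (w i) := by
    intro i
    fin_cases i
    · intro y hy
      show BJ (T x₁) (T y)
      rw [hTx₁]
      exact hPres₁ y hy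
    · intro y hy
      show BJ (T x₂) (T y)
      rw [hTx₂]
      exact hPres₂ y hy
    · exact hPres₃
  have hwli : LinearIndependent ℝ w := by
    rw [Fintype.linearIndependent_iff]
    intro g hg
    rw [Fin.sum_univ_three] at hg
    have hg' : g 0 • x₁ + g 1 • x₂ + g 2 • x₃ = 0 := hg
    have h2 : g 2 = 0 := by
      have := congrArg φ hg'
      rw [map_add, map_add, map_smul, map_smul, map_smul, hφ1, hφ2, map_zero, smul_zero, smul_zero,
        zero_add, zero_add, smul_eq_mul] at this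
      exact (mul_eq_zero.1 this).resolve_right hl
    rw [h2, zero_smul, add_zero] at hg'
    have h0 : g 0 = 0 := by
      have := congrArg p hg'
      rw [map_add, map_smul, map_smul, hp1, hp2, map_zero] at this
      simpa using this
    have h1 : g 1 = 0 := by
      have := congrArg q hg'
      rw [map_add, map_smul, map_smul, hq1, hq2, map_zero] at this
      simpa using this
    intro i
    fin_cases i
    · exact h0
    · exact h1
    · exact h2
  let y : Fin 3 → X := fun i => c i • w i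
  have hyn : ∀ i, ‖y i‖ = 1 := by
    intro i
    fin_cases i
    · show ‖‖x₁‖⁻¹ • x₁‖ = 1
      rw [norm_smul, norm_inv, norm_norm, inv_mul_cancel₀ hn₁.ne']
    · show ‖‖x₂‖⁻¹ • x₂‖ = 1
      rw [norm_smul, norm_inv, norm_norm, inv_mul_cancel₀ hn₂.ne']
    · show ‖(1 : ℝ) • x₃‖ = 1
      rw [one_smul, hx₃n]
  have hyli : LinearIndependent ℝ y := hwli.units_smul (fun i => Units.mk0 (c i) (hc i))
  have hynot : ∀ i j, ¬ BJ (y i) (y j) := fun i j h => hwn i j (BJ_smul (hc i) (hc j) h)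
  have hyP : ∀ i, Pres T (y i) := by
    intro i z hz
    have h1 : BJ (w i) z := by
      apply BJ_smul (hc i) one_ne_zero
      rw [one_smul]
      exact hz
    have h2 := BJ_left (c i) (hwP i z h1)
    show BJ (T (c i • w i)) (T z)
    rw [map_smul]
    exact h2
  have hK : IsK (Set.range y) := by
    refine ((hP (Set.range y) ⟨y 0, ⟨0, rfl⟩⟩ ?_).2 ⟨?_, ?_⟩).1
    · rintro _ ⟨i, rfl⟩
      exact hyn i
    · refine ⟨fun i => y (finCongr hdim i), hyli.comp _ (finCongr hdim).injective, ?_⟩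
      exact ((finCongr hdim).surjective.range_comp y).symm
    · intro A₁ A₂ hAA hA1 hA2 hall
      obtain ⟨s, hs⟩ := hA1
      obtain ⟨t, ht⟩ := hA2
      have hsA : s ∈ Set.range y := by
        rw [hAA]
        exact Or.inl hs
      have htA : t ∈ Set.range y := by
        rw [hAA]
        exact Or.inr ht
      obtain ⟨i, rfl⟩ := hsA
      obtain ⟨j, rfl⟩ := htA
      exact hynot i j (hall _ hs _ ht)
  obtain ⟨r, U, hUn, hTU⟩ := hK T (by
    rintro _ ⟨i, rfl⟩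
    exact hyP i)
  have hn1 : ∀ z, ‖T z‖ = |r| * ‖z‖ := by
    intro z
    rw [hTU, LinearMap.smul_apply, norm_smul, hUn, Real.norm_eq_abs]
  have hr : |r| = 1 := by
    have h1 := hn1 x₁
    rw [hTx₁] at h1
    have h2 : (|r| - 1) * ‖x₁‖ = 0 := by linarith
    rcases mul_eq_zero.1 h2 with h3 | h3
    · linarith
    · exact absurd h3 hn₁.ne'
  have h9 := hn1 x₃
  rw [hr, hx₃n] at h9
  linarith

end Pool.Agent.Q79.KS
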